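import Pool.Agent.H35.SW.FStmts

/-!
Module COLL of project SW: the collection scheme from replacement (rank hierarchy).
-/

set_option linter.unusedVariables false
set_option synthInstance.maxSize 100000

namespace SW

variable {M : Type} [SetStr M] [ZF M]

/-- the level of the rank hierarchy belonging to `x` -/
noncomputable def Vr (x : M) : M := mrec (fun x g => sUn (img x (fun y => pow (app g y)))) x

theorem Vr_df : Fn1 (fun x : M => Vr x) := by unfold Vr; infer_instance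

instance {n : ℕ} {t : (Fin n → M) → M} [ht : DfT t] : DfT (fun v => Vr (t v)) := Vr_df.comp1 ht

theorem mem_Vr {x z : M} : E z (Vr x) ↔ ∃ y, E y x ∧ Sub z (Vr y) := by
  have h : Vr x = sUn (img x (fun y => pow (app (gr x Vr) y))) := by
    unfold Vr
    exact mrec_eq inferInstance x
  rw [h, mem_sUn]
  constructor
  · rintro ⟨w, hw, hz⟩
    rw [mem_img' inferInstance] at hw
    obtain ⟨y, hy, rfl⟩ := hw
    rw [app_gr Vr_df hy, mem_pow] at hz
    exact ⟨y, hy, hz⟩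
  · rintro ⟨y, hy, hz⟩
    refine ⟨pow (Vr y), ?_, mem_pow.2 hz⟩
    rw [mem_img' inferInstance]
    exact ⟨y, hy, by rw [app_gr Vr_df hy]⟩

theorem sub_Vr (x : M) : Sub x (Vr x) := by
  refine mem_induction (C := fun x : M => Sub x (Vr x)) inferInstance ?_ x
  intro x ih y hy
  exact mem_Vr.2 ⟨y, hy, ih y hy⟩

/-- comparability of the levels -/
theorem Vr_comp (x : M) : ∀ y : M, Sub (Vr x) (Vr y) ∨ E (Vr y) (Vr x) := by
  refine mem_induction (C := fun x : M => ∀ y : M, Sub (Vr x) (Vr y) ∨ E (Vr y) (Vr x))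
    inferInstance ?_ x
  intro x ih y
  by_cases h : Sub (Vr x) (Vr y)
  · exact Or.inl h
  right
  have h1 : ∃ z, E z (Vr x) ∧ ¬ E z (Vr y) := by
    by_contra hc
    exact h fun z hz => by
      by_contra hz'
      exact hc ⟨z, hz, hz'⟩
  obtain ⟨z, hz, hz'⟩ := h1
  obtain ⟨x', hx', hzx⟩ := mem_Vr.1 hz
  refine mem_Vr.2 ⟨x', hx', ?_⟩
  intro w hw
  obtain ⟨y', hy', hwy⟩ := mem_Vr.1 hw
  rcases ih x' hx' y' with h2 | h2
  · exact absurd (mem_Vr.2 ⟨y', hy', hzx.trans h2⟩) hz'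
  · obtain ⟨u, hu, hyu⟩ := mem_Vr.1 h2
    exact mem_Vr.2 ⟨u, hu, hwy.trans hyu⟩

theorem coll : COLLStmt := by
  intro M _ _ R hR a ha
  have _ : ∀ {n : ℕ} {t s : (Fin n → M) → M} [DfT t] [DfT s],
      Df (fun v => R (t v) (s v)) := fun {n t s} ht hs => Df.comp2 hR ht hs
  let f : M → M := fun x => the (fun v => (∃ w : M, v = Vr w ∧ ∃ y : M, E y v ∧ R x y) ∧
    ∀ w' : M, (∃ y : M, E y (Vr w') ∧ R x y) → Sub v (Vr w'))
  have hf : Fn1 f := by
    show Fn1 (fun x => the (fun v => (∃ w : M, v = Vr w ∧ ∃ y : M, E y v ∧ R x y) ∧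
      ∀ w' : M, (∃ y : M, E y (Vr w') ∧ R x y) → Sub v (Vr w')))
    infer_instance
  refine ⟨sUn (img a f), fun x hx => ?_⟩
  have hC : Cl (fun v : M => ∃ w : M, v = Vr w ∧ ∃ y : M, E y v ∧ R x y) := inferInstance
  obtain ⟨y0, hy0⟩ := ha x hx
  obtain ⟨v, ⟨w, hv, y, hy, hRy⟩, hmin⟩ := mem_min hC
    ⟨Vr (sing y0), sing y0, rfl, y0, mem_Vr.2 ⟨y0, mem_sing.2 rfl, sub_Vr y0⟩, hy0⟩
  have hsub : ∀ w' : M, (∃ y : M, E y (Vr w') ∧ R x y) → Sub v (Vr w') := by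
    intro w' hw'
    rcases Vr_comp w w' with h | h
    · rw [hv]; exact h
    · exact absurd ⟨w', rfl, hw'⟩ (hmin (Vr w') (by rw [hv]; exact h))
  have hfx : f x = v := by
    refine the_eq ⟨⟨w, hv, y, hy, hRy⟩, hsub⟩ ?_
    rintro z ⟨⟨w1, hz, y1, hy1, hR1⟩, hz2⟩
    refine Sub.antisymm ?_ ?_
    · rw [hv]
      exact hz2 w ⟨y, by rw [← hv]; exact hy, hRy⟩
    · rw [hz]
      exact hsub w1 ⟨y1, by rw [← hz]; exact hy1, hR1⟩
  refine ⟨y, mem_sUn.2 ⟨v, (mem_img' hf).2 ⟨x, hx, hfx.symm⟩, hy⟩, hRy⟩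

end SW
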