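import Pool.Agent.H35.SW.FinDefs

/-!
Module FIN of project SW: finite sets and their cardinalities in a model of ZF.
-/

set_option linter.unusedVariables false
set_option synthInstance.maxSize 100000

namespace SW

variable {M : Type} [SetStr M] [ZF M]

theorem ins_of_mem {a x : M} (h : E a x) : ins a x = x := by
  refine ext fun z => ?_
  rw [mem_ins]
  constructor
  · rintro (h1 | rfl)
    · exact h1
    · exact h
  · exact Or.inl

theorem ins_diff {a x : M} (h : E a x) : ins a (diff x (sing a)) = x := by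
  refine ext fun z => ?_
  rw [mem_ins, mem_diff, mem_sing]
  constructor
  · rintro (h1 | rfl)
    · exact h1.1
    · exact h
  · intro hz
    by_cases hza : z = a
    · exact Or.inr hza
    · exact Or.inl ⟨hz, hza⟩

theorem not_mem_diff_sing (a x : M) : ¬ E a (diff x (sing a)) := by
  rw [mem_diff, mem_sing]
  exact fun h => h.2 rfl

theorem Enum_emp (f : M) : Enum f (emp : M) emp := by
  refine ⟨fun i hi => absurd hi (not_mem_emp i), fun i hi => absurd hi (not_mem_emp i),
    fun i _ _ hi => absurd hi (not_mem_emp i), fun i _ _ hi => absurd hi (not_mem_emp i)⟩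

theorem Enum_zero {f x : M} (h : Enum f emp x) : x = emp := by
  refine eq_emp fun z hz => ?_
  obtain ⟨i, hi, _⟩ := h.2.1 z hz
  exact not_mem_emp i hi

theorem Enum_add {f n x a : M} (h : Enum f n x) (ha : ¬ E a x) : ∃ f', Enum f' (suc n) (ins a x) := by
  obtain ⟨h1, h2, h3, h4⟩ := h
  refine ⟨ins (opair n a) (sep f (fun z => ∃ i y : M, E i n ∧ E y x ∧ z = opair i y)), ?_⟩
  have key : ∀ i y : M, E (opair i y)
      (ins (opair n a) (sep f (fun z => ∃ i y : M, E i n ∧ E y x ∧ z = opair i y))) ↔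
      (E (opair i y) f ∧ E i n ∧ E y x) ∨ (i = n ∧ y = a) := by
    intro i y
    rw [mem_ins, mem_sep, opair_inj]
    constructor
    · rintro (⟨h5, i', y', hi', hy', h6⟩ | h5)
      · rw [opair_inj] at h6
        obtain ⟨rfl, rfl⟩ := h6
        exact Or.inl ⟨h5, hi', hy'⟩
      · exact Or.inr h5
    · rintro (⟨h5, h6, h7⟩ | h5)
      · exact Or.inl ⟨h5, i, y, h6, h7, rfl⟩
      · exact Or.inr h5
  refine ⟨?_, ?_, ?_, ?_⟩
  · intro i hi
    rw [mem_suc] at hi
    rcases hi with hi | rfl
    · obtain ⟨y, hy, hf⟩ := h1 i hi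
      exact ⟨y, by rw [mem_ins]; exact Or.inl hy, (key i y).2 (Or.inl ⟨hf, hi, hy⟩)⟩
    · exact ⟨a, by rw [mem_ins]; exact Or.inr rfl, (key i a).2 (Or.inr ⟨rfl, rfl⟩)⟩
  · intro y hy
    rw [mem_ins] at hy
    rcases hy with hy | rfl
    · obtain ⟨i, hi, hf⟩ := h2 y hy
      exact ⟨i, by rw [mem_suc]; exact Or.inl hi, (key i y).2 (Or.inl ⟨hf, hi, hy⟩)⟩
    · exact ⟨n, by rw [mem_suc]; exact Or.inr rfl, (key n y).2 (Or.inr ⟨rfl, rfl⟩)⟩
  · intro i y y' hi hy hy'
    rcases (key i y).1 hy with ⟨h5, h6, h7⟩ | ⟨h5, h6⟩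
    · rcases (key i y').1 hy' with ⟨h8, h9, h10⟩ | ⟨h8, h9⟩
      · exact h3 i y y' h6 h5 h8
      · rw [h8] at h6; exact absurd h6 (not_mem_self n)
    · rcases (key i y').1 hy' with ⟨h8, h9, h10⟩ | ⟨h8, h9⟩
      · rw [h5] at h9; exact absurd h9 (not_mem_self n)
      · rw [h6, h9]
  · intro i i' y hi hi' hy hf hf'
    rcases (key i y).1 hf with ⟨h5, h6, h7⟩ | ⟨h5, h6⟩
    · rcases (key i' y).1 hf' with ⟨h8, h9, h10⟩ | ⟨h8, h9⟩
      · exact h4 i i' y h6 h9 h7 h5 h8
      · rw [h9] at h7; exact absurd h7 ha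
    · rcases (key i' y).1 hf' with ⟨h8, h9, h10⟩ | ⟨h8, h9⟩
      · rw [h6] at h10; exact absurd h10 ha
      · rw [h5, h8]

/-- removing an element -/
theorem Enum_del {f n x b : M} (h : Enum f (suc n) x) (hb : E b x) :
    ∃ f', Enum f' n (diff x (sing b)) := by
  obtain ⟨h1, h2, h3, h4⟩ := h
  have hn : E n (suc n) := by rw [mem_suc]; exact Or.inr rfl
  have hs : ∀ i, E i n → E i (suc n) := fun i hi => by rw [mem_suc]; exact Or.inl hi
  obtain ⟨a, ha, hfa⟩ := h1 n hn
  obtain ⟨j, hj, hfj⟩ := h2 b hb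
  -- the pairs with first coordinate below `n`, with value `a` at `j`
  refine ⟨sep (ins (opair j a) f) (fun z => ∃ i y : M, z = opair i y ∧ y ≠ b), ?_⟩
  have key : ∀ i y : M, E (opair i y)
      (sep (ins (opair j a) f) (fun z => ∃ i y : M, z = opair i y ∧ y ≠ b)) ↔
      (E (opair i y) f ∨ (i = j ∧ y = a)) ∧ y ≠ b := by
    intro i y
    rw [mem_sep, mem_ins, opair_inj]
    constructor
    · rintro ⟨h5, i', y', h6, h7⟩
      rw [opair_inj] at h6
      obtain ⟨rfl, rfl⟩ := h6
      exact ⟨h5, h7⟩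
    · rintro ⟨h5, h6⟩
      exact ⟨h5, i, y, rfl, h6⟩
  have hnn : ∀ i, E i n → i ≠ n := fun i hi e => by rw [e] at hi; exact not_mem_self n hi
  refine ⟨?_, ?_, ?_, ?_⟩
  · intro i hi
    by_cases hij : i = j
    · have hab : a ≠ b := by
        rintro rfl
        exact hnn i hi (hij.trans (h4 j n a hj hn ha hfj hfa))
      exact ⟨a, by rw [mem_diff, mem_sing]; exact ⟨ha, hab⟩, (key i a).2 ⟨Or.inr ⟨hij, rfl⟩, hab⟩⟩
    · obtain ⟨y, hy, hf⟩ := h1 i (hs i hi)
      have hyb : y ≠ b := by
        rintro rfl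
        exact hij (h4 i j y (hs i hi) hj hy hf hfj)
      exact ⟨y, by rw [mem_diff, mem_sing]; exact ⟨hy, hyb⟩, (key i y).2 ⟨Or.inl hf, hyb⟩⟩
  · intro y hy
    rw [mem_diff, mem_sing] at hy
    obtain ⟨i, hi, hf⟩ := h2 y hy.1
    rw [mem_suc] at hi
    rcases hi with hi | rfl
    · exact ⟨i, hi, (key i y).2 ⟨Or.inl hf, hy.2⟩⟩
    · have hya : y = a := h3 i y a hn hf hfa
      refine ⟨j, ?_, (key j y).2 ⟨Or.inr ⟨rfl, hya⟩, hy.2⟩⟩
      rw [mem_suc] at hj
      rcases hj with hj | rfl
      · exact hj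
      · exact absurd (hya.trans (h3 j a b hn hfa hfj)) hy.2
  · intro i y y' hi hy hy'
    obtain ⟨h5, h6⟩ := (key i y).1 hy
    obtain ⟨h7, h8⟩ := (key i y').1 hy'
    have hv : ∀ y, (E (opair i y) f ∨ (i = j ∧ y = a)) → y ≠ b → i = j → y = a := by
      rintro y (h9 | h9) h10 h11
      · rw [h11] at h9
        exact absurd (h3 j y b hj h9 hfj) h10
      · exact h9.2
    by_cases hij : i = j
    · rw [hv y h5 h6 hij, hv y' h7 h8 hij]
    · rcases h5 with h5 | h5
      · rcases h7 with h7 | h7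
        · exact h3 i y y' (hs i hi) h5 h7
        · exact absurd h7.1 hij
      · exact absurd h5.1 hij
  · intro i i' y hi hi' hy hf hf'
    obtain ⟨h5, h6⟩ := (key i y).1 hf
    obtain ⟨h7, h8⟩ := (key i' y).1 hf'
    rw [mem_diff] at hy
    rcases h5 with h5 | h5
    · rcases h7 with h7 | h7
      · exact h4 i i' y (hs i hi) (hs i' hi') hy.1 h5 h7
      · exfalso
        rw [h7.2] at h5
        exact hnn i hi (h4 i n a (hs i hi) hn ha h5 hfa)
    · rcases h7 with h7 | h7
      · exfalso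
        rw [h5.2] at h7
        exact hnn i' hi' (h4 i' n a (hs i' hi') hn ha h7 hfa)
      · rw [h5.1, h7.1]

theorem Cnt_emp : Cnt (emp : M) emp := ⟨emp_mem_om, emp, Enum_emp emp⟩

theorem Cnt_add {x n a : M} (h : Cnt x n) (ha : ¬ E a x) : Cnt (ins a x) (suc n) :=
  ⟨suc_mem_om h.1, Enum_add h.2.choose_spec ha⟩

theorem Cnt_del {x n b : M} (hn : E n om) (h : Cnt x (suc n)) (hb : E b x) :
    Cnt (diff x (sing b)) n := ⟨hn, Enum_del h.2.choose_spec hb⟩

theorem Cnt_zero {x : M} (h : Cnt x emp) : x = emp := Enum_zero h.2.choose_spec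

theorem Cnt_pos {x n : M} (h : Cnt x (suc n)) : ∃ a, E a x := by
  obtain ⟨_, f, hf⟩ := h
  obtain ⟨y, hy, _⟩ := hf.1 n (by rw [mem_suc]; exact Or.inr rfl)
  exact ⟨y, hy⟩

theorem Cnt_uniq {x n m : M} (h : Cnt x n) (h' : Cnt x m) : n = m := by
  revert x m
  suffices key : ∀ n : M, E n om → ∀ x m : M, Cnt x n → Cnt x m → n = m by
    intro x m h h'
    exact key n h.1 x m h h'
  refine om_ind (C := fun n : M => ∀ x m : M, Cnt x n → Cnt x m → n = m) inferInstance ?_ ?_
  · intro x m h h'
    rcases om_cases h'.1 with rfl | ⟨k, hk, rfl⟩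
    · rfl
    · obtain ⟨a, ha⟩ := Cnt_pos h'
      rw [Cnt_zero h] at ha
      exact absurd ha (not_mem_emp a)
  · intro n hn ih x m h h'
    obtain ⟨a, ha⟩ := Cnt_pos h
    rcases om_cases h'.1 with rfl | ⟨k, hk, rfl⟩
    · rw [Cnt_zero h'] at ha
      exact absurd ha (not_mem_emp a)
    · rw [ih _ _ (Cnt_del hn h ha) (Cnt_del hk h' ha)]

theorem card_eq {x n : M} (h : Cnt x n) : card x = n :=
  the_eq h fun z hz => Cnt_uniq hz h

theorem Cnt_card {x : M} (h : Fnt x) : Cnt x (card x) := by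
  obtain ⟨n, hn⟩ := h
  rw [card_eq hn]
  exact hn

theorem fnt_ind {C : M → Prop} (hC : Cl C) (h0 : C emp)
    (h1 : ∀ x a, Fnt x → ¬ E a x → C x → C (ins a x)) (x : M) (hx : Fnt x) : C x := by
  obtain ⟨n, hn⟩ := hx
  have key : ∀ n : M, E n om → ∀ x : M, Cnt x n → C x := by
    refine om_ind (C := fun n : M => ∀ x : M, Cnt x n → C x) inferInstance ?_ ?_
    · intro x hx
      rw [Cnt_zero hx]
      exact h0
    · intro n hn ih x hx
      obtain ⟨a, ha⟩ := Cnt_pos hx
      have h2 := Cnt_del hn hx ha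
      have h3 := h1 _ a ⟨n, h2⟩ (not_mem_diff_sing a x) (ih _ h2)
      rwa [ins_diff ha] at h3
  exact key n hn.1 x hn

theorem fnt_ins {x a : M} (h : Fnt x) : Fnt (ins a x) := by
  by_cases ha : E a x
  · rwa [ins_of_mem ha]
  · obtain ⟨n, hn⟩ := h
    exact ⟨_, Cnt_add hn ha⟩

theorem fnt_sub {x y : M} (h : Fnt x) (hy : Sub y x) : Fnt y := by
  refine fnt_ind (C := fun x : M => ∀ y : M, Sub y x → Fnt y) inferInstance ?_ ?_ x h y hy
  · intro y hy
    rw [eq_emp fun z hz => not_mem_emp z (hy z hz)]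
    exact ⟨_, Cnt_emp⟩
  · intro x a hx ha ih y hy
    have h1 : Sub (diff y (sing a)) x := by
      intro z hz
      rw [mem_diff, mem_sing] at hz
      have := hy z hz.1
      rw [mem_ins] at this
      exact this.resolve_right hz.2
    by_cases hay : E a y
    · rw [← ins_diff hay]
      exact fnt_ins (ih _ h1)
    · refine ih y fun z hz => ?_
      have := hy z hz
      rw [mem_ins] at this
      exact this.resolve_right fun e => hay (by rw [← e]; exact hz)

theorem fnt_bun {x y : M} (hx : Fnt x) (hy : Fnt y) : Fnt (bun x y) := by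
  refine fnt_ind (C := fun y : M => Fnt (bun x y)) inferInstance ?_ ?_ y hy
  · have : bun x emp = x := ext fun z => by
      rw [mem_bun]
      exact ⟨fun h => h.resolve_right (not_mem_emp z), Or.inl⟩
    rwa [this]
  · intro y a _ _ ih
    have : bun x (ins a y) = ins a (bun x y) := ext fun z => by
      rw [mem_bun, mem_ins, mem_ins, mem_bun, or_assoc]
    rw [this]
    exact fnt_ins ih

theorem fnt_sUn {x : M} (hx : Fnt x) (h : ∀ y, E y x → Fnt y) : Fnt (sUn x) := by
  refine fnt_ind (C := fun x : M => (∀ y : M, E y x → Fnt y) → Fnt (sUn x)) inferInstance ?_ ?_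
    x hx h
  · intro _
    rw [eq_emp (x := sUn (emp : M)) fun z hz => by
      rw [mem_sUn] at hz
      obtain ⟨y, hy, _⟩ := hz
      exact not_mem_emp y hy]
    exact ⟨_, Cnt_emp⟩
  · intro x a _ _ ih h
    have : sUn (ins a x) = bun (sUn x) a := ext fun z => by
      rw [mem_bun, mem_sUn, mem_sUn]
      constructor
      · rintro ⟨y, hy, hz⟩
        rw [mem_ins] at hy
        rcases hy with hy | rfl
        · exact Or.inl ⟨y, hy, hz⟩
        · exact Or.inr hz
      · rintro (⟨y, hy, hz⟩ | hz)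
        · exact ⟨y, by rw [mem_ins]; exact Or.inl hy, hz⟩
        · exact ⟨a, by rw [mem_ins]; exact Or.inr rfl, hz⟩
    rw [this]
    exact fnt_bun (ih fun y hy => h y (by rw [mem_ins]; exact Or.inl hy))
      (h a (by rw [mem_ins]; exact Or.inr rfl))

theorem fnt_img {x : M} (f : M → M) (hf : Fn1 f) (hx : Fnt x) : Fnt (img x f) := by
  refine fnt_ind (C := fun x : M => Fnt (img x f)) inferInstance ?_ ?_ x hx
  · rw [eq_emp (x := img (emp : M) f) fun z hz => by
      rw [mem_img' hf] at hz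
      obtain ⟨y, hy, _⟩ := hz
      exact not_mem_emp y hy]
    exact ⟨_, Cnt_emp⟩
  · intro x a _ _ ih
    have : img (ins a x) f = ins (f a) (img x f) := ext fun z => by
      rw [mem_img' hf, mem_ins, mem_img' hf]
      constructor
      · rintro ⟨y, hy, hz⟩
        rw [mem_ins] at hy
        rcases hy with hy | rfl
        · exact Or.inl ⟨y, hy, hz⟩
        · exact Or.inr hz
      · rintro (⟨y, hy, hz⟩ | hz)
        · exact ⟨y, by rw [mem_ins]; exact Or.inl hy, hz⟩
        · exact ⟨a, by rw [mem_ins]; exact Or.inr rfl, hz⟩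
    rw [this]
    exact fnt_ins ih

theorem fnt_prod {x y : M} (hx : Fnt x) (hy : Fnt y) : Fnt (prod x y) := by
  refine fnt_ind (C := fun x : M => Fnt (prod x y)) inferInstance ?_ ?_ x hx
  · rw [eq_emp (x := prod emp y) fun z hz => by
      rw [mem_prod'] at hz
      obtain ⟨a, b, ha, _⟩ := hz
      exact not_mem_emp a ha]
    exact ⟨_, Cnt_emp⟩
  · intro x a _ _ ih
    have : prod (ins a x) y = bun (prod x y) (img y (fun b => opair a b)) := ext fun z => by
      rw [mem_bun, mem_img, mem_prod', mem_prod']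
      constructor
      · rintro ⟨a', b, ha', hb, rfl⟩
        rw [mem_ins] at ha'
        rcases ha' with ha' | rfl
        · exact Or.inl ⟨a', b, ha', hb, rfl⟩
        · exact Or.inr ⟨b, hb, rfl⟩
      · rintro (⟨a', b, ha', hb, rfl⟩ | ⟨b, hb, rfl⟩)
        · exact ⟨a', b, by rw [mem_ins]; exact Or.inl ha', hb, rfl⟩
        · exact ⟨a, b, by rw [mem_ins]; exact Or.inr rfl, hb, rfl⟩
    rw [this]
    exact fnt_bun ih (fnt_img _ inferInstance hy)

theorem fnt_nat {n : M} (hn : E n om) : Fnt n :=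
  om_ind (C := fun n : M => Fnt n) inferInstance ⟨_, Cnt_emp⟩ (fun n _ h => fnt_ins h) n hn

theorem card_ins' {x a : M} (h : Fnt x) (ha : ¬ E a x) : card (ins a x) = suc (card x) :=
  card_eq (Cnt_add (Cnt_card h) ha)

theorem card_mem_om {x : M} (h : Fnt x) : E (card x) om := (Cnt_card h).1

theorem card_lt' {x y : M} (hx : Fnt x) (hy : Sub y x) (hne : y ≠ x) : E (card y) (card x) := by
  refine fnt_ind (C := fun x : M => ∀ y : M, Sub y x → y ≠ x → E (card y) (card x)) inferInstance
    ?_ ?_ x hx y hy hne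
  · intro y hy hne
    exact absurd (eq_emp fun z hz => not_mem_emp z (hy z hz)) hne
  · intro x a hx ha ih y hy hne
    rw [card_ins' hx ha]
    by_cases hay : E a y
    · have h1 : Sub (diff y (sing a)) x := by
        intro z hz
        rw [mem_diff, mem_sing] at hz
        have := hy z hz.1
        rw [mem_ins] at this
        exact this.resolve_right hz.2
      have h2 : diff y (sing a) ≠ x := by
        intro e
        apply hne
        rw [← e, ins_diff hay]
      have h3 := ih _ h1 h2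
      have hfy := fnt_sub hx h1
      have h4 : card y = suc (card (diff y (sing a))) := by
        have := card_ins' hfy (not_mem_diff_sing a y)
        rwa [ins_diff hay] at this
      rw [h4]
      exact (suc_mem_suc (Ord_nat (card_mem_om hfy)) (Ord_nat (card_mem_om hx))).2 h3
    · have h1 : Sub y x := by
        intro z hz
        have := hy z hz
        rw [mem_ins] at this
        exact this.resolve_right fun e => hay (by rw [← e]; exact hz)
      rw [mem_suc]
      by_cases h2 : y = x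
      · right; rw [h2]
      · left; exact ih y h1 h2

theorem fin : FINStmt := by
  intro M _ _
  exact
    { emp := ⟨_, Cnt_emp⟩
      ins := fnt_ins
      sub := fnt_sub
      bun := fnt_bun
      sUn := fnt_sUn
      img := fnt_img
      prod := fnt_prod
      nat := fnt_nat
      ind := fun C hC => fnt_ind hC
      card_om := card_mem_om
      card_emp := card_eq Cnt_emp
      card_ins := card_ins'
      card_lt := card_lt'
      card_le := by
        intro x y hx hy
        by_cases h : y = x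
        · rw [h]; exact Sub.refl _
        · exact (Ord_nat (card_mem_om hx)).sub_of_mem (card_lt' hx hy h) }

end SW
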