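import Pool.Agent.H35.SW.CDefs

/-!
Modules MINI and HFEX of project SW: minimal members of a class below a finite set, and the
existence of the set of hereditarily finite sets.
-/

set_option linter.unusedVariables false
set_option synthInstance.maxSize 100000

namespace SW

theorem mini (hfin : FINStmt) : MINIStmt := by
  intro M _ _ C hC q hq hCq
  have hf := hfin M
  have : Cl (fun x : M => C x) := hC
  have hD : Cl (fun n : M => ∃ q' : M, Sub q' q ∧ C q' ∧ card q' = n) := inferInstance
  obtain ⟨n, ⟨q', h1, h2, h3⟩, h4⟩ := mem_min hD ⟨card q, q, Sub.refl q, hCq, rfl⟩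
  refine ⟨q', h1, h2, fun q'' h5 h6 => ?_⟩
  by_contra hne
  have h7 := hf.card_lt (hf.sub hq h1) h5 hne
  rw [h3] at h7
  exact h4 _ h7 ⟨q'', h5.trans h1, h6, rfl⟩

section
variable {M : Type} [SetStr M] [ZF M]

/-- the levels of the cumulative hierarchy below `om` -/
noncomputable def lev (n : M) : M := orec emp (fun y : M => pow y) n

theorem lev_df : Fn1 (fun n : M => lev n) := by unfold lev; infer_instance

instance {n : ℕ} {t : (Fin n → M) → M} [ht : DfT t] : DfT (fun v => lev (t v)) :=
  lev_df.comp1 ht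

theorem lev_zero : lev (emp : M) = emp := orec_zero inferInstance

theorem lev_suc {n : M} (hn : E n om) : lev (suc n) = pow (lev n) := orec_suc inferInstance hn

theorem lev_trans {n : M} (hn : E n om) : Trans (lev n) := by
  refine om_ind (C := fun n : M => Trans (lev n)) inferInstance ?_ ?_ n hn
  · rw [lev_zero]
    exact fun y hy => absurd hy (not_mem_emp y)
  · intro n hn ih
    rw [lev_suc hn]
    intro y hy z hz
    rw [mem_pow] at hy ⊢
    exact ih z (hy z hz)

theorem lev_sub_suc {n : M} (hn : E n om) : Sub (lev n) (lev (suc n)) := by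
  intro z hz
  rw [lev_suc hn, mem_pow]
  exact lev_trans hn z hz

theorem lev_mono {m n : M} (hn : E n om) (hm : E m n) : Sub (lev m) (lev n) := by
  refine om_ind (C := fun n : M => ∀ m : M, E m n → Sub (lev m) (lev n)) inferInstance ?_ ?_ n hn
    m hm
  · intro m hm
    exact absurd hm (not_mem_emp m)
  · intro n hn ih m hm
    rw [mem_suc] at hm
    rcases hm with hm | rfl
    · exact (ih m hm).trans (lev_sub_suc hn)
    · exact lev_sub_suc hn

/-- the set of hereditarily finite sets is below this one -/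
noncomputable def levU (M : Type) [SetStr M] [ZF M] : M := sUn (img om (fun n : M => lev n))

theorem mem_levU {x : M} : E x (levU M) ↔ ∃ n, E n om ∧ E x (lev n) := by
  unfold levU
  rw [mem_sUn]
  constructor
  · rintro ⟨y, hy, hx⟩
    rw [mem_img] at hy
    obtain ⟨n, hn, rfl⟩ := hy
    exact ⟨n, hn, hx⟩
  · rintro ⟨n, hn, hx⟩
    exact ⟨lev n, by rw [mem_img]; exact ⟨n, hn, rfl⟩, hx⟩

theorem levU_closed : HFClosed (levU M) := by
  rw [hfClosed_iff]
  refine ⟨?_, ?_⟩
  · rw [mem_levU]
    have h0 : E (emp : M) om := by rw [mem_om]; exact fun z hz => hz.1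
    refine ⟨suc emp, suc_mem_om h0, ?_⟩
    rw [lev_suc h0, mem_pow]
    exact fun z hz => absurd hz (not_mem_emp z)
  · intro x y hx hy
    rw [mem_levU] at hx hy
    obtain ⟨n, hn, hx⟩ := hx
    obtain ⟨m, hm, hy⟩ := hy
    obtain ⟨k, hk, hxk, hyk⟩ : ∃ k : M, E k om ∧ E x (lev k) ∧ E y (lev k) := by
      rcases Ord.tri (Ord_nat hn) (Ord_nat hm) with h | h | h
      · exact ⟨m, hm, lev_mono hm h x hx, hy⟩
      · exact ⟨m, hm, h ▸ hx, hy⟩
      · exact ⟨n, hn, hx, lev_mono hn h y hy⟩
    rw [mem_levU]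
    refine ⟨suc k, suc_mem_om hk, ?_⟩
    rw [lev_suc hk, mem_pow]
    intro z hz
    rw [mem_ins] at hz
    rcases hz with hz | rfl
    · exact lev_trans hk x hxk z hz
    · exact hyk

end

theorem hfex : HFEXStmt := by
  intro M _ _
  have hC : Cl (fun x : M => ∀ Z : M, HFClosed Z → E x Z) := inferInstance
  refine ⟨sep (levU M) (fun x : M => ∀ Z : M, HFClosed Z → E x Z), ?_, ?_⟩
  · rw [hfClosed_iff]
    refine ⟨?_, ?_⟩
    · rw [mem_sep]
      exact ⟨(hfClosed_iff.1 levU_closed).1, fun Z hZ => (hfClosed_iff.1 hZ).1⟩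
    · intro x y hx hy
      rw [mem_sep] at hx hy ⊢
      exact ⟨(hfClosed_iff.1 levU_closed).2 x y hx.1 hy.1,
        fun Z hZ => (hfClosed_iff.1 hZ).2 x y (hx.2 Z hZ) (hy.2 Z hZ)⟩
  · intro Z hZ x hx
    rw [mem_sep] at hx
    exact hx.2 Z hZ

end SW
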