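import Pool.Agent.H35.SW.FStmts

/-!
Module SEM of project SW: existence of generic filters over countable models, semantic forcing.
-/

set_option linter.unusedVariables false
set_option synthInstance.maxSize 100000

namespace SW

variable {M : Type} [SetStr M] [ZF M]

open Classical in
/-- generic filters over countable models exist -/
theorem gen_ex [Countable M] (F : FPoset M) (p : M) (hp : E p F.P) : ∃ G, Gen F G ∧ G p := by
  have hne : Nonempty M := ⟨p⟩
  obtain ⟨e, he⟩ := exists_surjective_nat M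
  -- one step
  have step : ∀ (n : ℕ) (q : {q : M // E q F.P}), ∃ r : {r : M // E r F.P}, F.le r.1 q.1 ∧
      ((∀ p, E p F.P → ∃ q, E q F.P ∧ F.le q p ∧ E q (e n)) → E r.1 (e n)) := by
    intro n q
    by_cases h : ∀ p, E p F.P → ∃ q, E q F.P ∧ F.le q p ∧ E q (e n)
    · obtain ⟨r, hr, hrq, hrD⟩ := h q.1 q.2
      exact ⟨⟨r, hr⟩, hrq, fun _ => hrD⟩
    · exact ⟨q, F.refl _ q.2, fun h' => absurd h' h⟩
  choose st hst1 hst2 using step
  let s : ℕ → {q : M // E q F.P} := fun n => Nat.rec ⟨p, hp⟩ (fun n q => st n q) n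
  have hs0 : s 0 = ⟨p, hp⟩ := rfl
  have hss : ∀ n, s (n + 1) = st n (s n) := fun n => rfl
  have hdec : ∀ n k, F.le (s (n + k)).1 (s n).1 := by
    intro n k
    induction k with
    | zero => exact F.refl _ (s n).2
    | succ k ih =>
      have h1 : F.le (s (n + k + 1)).1 (s (n + k)).1 := by
        rw [hss]; exact hst1 _ _
      exact F.trans _ _ _ (s (n + k + 1)).2 (s (n + k)).2 (s n).2 h1 ih
  have hdec' : ∀ n m, n ≤ m → F.le (s m).1 (s n).1 := by
    intro n m h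
    obtain ⟨k, rfl⟩ := Nat.exists_eq_add_of_le h
    exact hdec n k
  refine ⟨fun q => E q F.P ∧ ∃ n, F.le (s n).1 q, ⟨fun q hq => hq.1, ?_, ?_, ?_, ?_⟩, hp, 0, ?_⟩
  · exact ⟨F.one_mem, 0, F.le_one _ (s 0).2⟩
  · rintro q r ⟨hq, n, hn⟩ hr hqr
    exact ⟨hr, n, F.trans _ _ _ (s n).2 hq hr hn hqr⟩
  · rintro q r ⟨hq, n, hn⟩ ⟨hr, m, hm⟩
    refine ⟨(s (max n m)).1, ⟨(s (max n m)).2, max n m, F.refl _ (s (max n m)).2⟩, ?_, ?_⟩
    · exact F.trans _ _ _ (s (max n m)).2 (s n).2 hq (hdec' _ _ (le_max_left _ _)) hn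
    · exact F.trans _ _ _ (s (max n m)).2 (s m).2 hr (hdec' _ _ (le_max_right _ _)) hm
  · intro D hD
    obtain ⟨n, rfl⟩ := he D
    refine ⟨(s (n + 1)).1, ⟨(s (n + 1)).2, n + 1, F.refl _ (s (n + 1)).2⟩, ?_⟩
    rw [hss]
    exact hst2 n _ hD
  · exact F.refl _ hp

theorem FS_iff [Countable M] {F : FPoset M} (hF : FrcFacts F) {n : ℕ}
    {Q : ∀ (N : Type) [SetStr N], (Fin n → N) → Prop} {f : Fml n}
    (hf : ∀ (M : Type) [SetStr M] (v : Fin n → M), Q M v ↔ Sat f v) {p : M} (hp : E p F.P)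
    (v : Fin n → M) : FS F Q p v ↔ Frc F f p v := by
  constructor
  · intro h
    refine hF.dense f hp fun q hq hqp => ?_
    by_contra hc
    obtain ⟨G, hG, hGq⟩ := gen_ex F q hq
    have h1 := h G hG (hG.up q p hGq hp hqp)
    rw [hf] at h1
    obtain ⟨r, hr, hrf⟩ := (hF.truth G hG f v).1 h1
    obtain ⟨t, ht, htr, htq⟩ := hG.dir r q hr hGq
    exact hc ⟨t, hG.sub t ht, htq, hF.mono f (hG.sub r hr) (hG.sub t ht) htr hrf⟩
  · intro h G hG hGp
    rw [hf]
    exact (hF.truth G hG f v).2 ⟨p, hGp, h⟩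

theorem sem (htru : TRUStmt) : SEMStmt := by
  intro M _ _ _ F
  have hF := htru M F
  refine ⟨fun p hp => gen_ex F p hp, ?_, ?_, ?_⟩
  · intro n Q hQ
    obtain ⟨f, hf⟩ := hQ.out
    have _ := hF.df f
    refine (inferInstance : Df (fun w : Fin (n + 1) → M => E (w 0) F.P →
      Frc F f (w 0) (fun i => w i.succ))).congr fun w => ?_
    constructor
    · intro h hp
      exact (FS_iff hF hf hp _).1 h
    · intro h G hG hGp
      exact (FS_iff hF hf (hG.sub _ hGp) _).2 (h (hG.sub _ hGp)) G hG hGp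
  · intro n Q hQ G hG v
    obtain ⟨f, hf⟩ := hQ.out
    rw [hf, hF.truth G hG f v]
    constructor
    · rintro ⟨p, hp, h⟩
      exact ⟨p, hp, (FS_iff hF hf (hG.sub p hp) v).2 h⟩
    · rintro ⟨p, hp, h⟩
      exact ⟨p, hp, (FS_iff hF hf (hG.sub p hp) v).1 h⟩
  · intro n Q hQ p v hp h
    obtain ⟨f, hf⟩ := hQ.out
    rw [FS_iff hF hf hp]
    refine hF.dense f hp fun q hq hqp => ?_
    obtain ⟨r, hr, hrq, hrf⟩ := h q hq hqp
    exact ⟨r, hr, hrq, (FS_iff hF hf hr v).1 hrf⟩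

end SW
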